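import Pool.Agent.H55.BQ.Targets

/-!
# Biplanar drawings (MP_bacf0e_co), row TC: the terms of the other cells
-/

set_option autoImplicit false

open Finset Pool.Agent.H55.BP Pool.Agent.H55.BQ

namespace Pool.Agent.H99.BQ

/-- the parity of a sum with one exceptional index -/
theorem tc_sum (u v : Fin 3 → ℕ) (D : ℕ) (x : Fin 3) (hu : ∀ a, a ≠ x → u a = D)
    (hv : ∀ b, b ≠ x → v b = D) :
    (∑ a : Fin 3, ∑ b : Fin 3, (if a ≠ b ∧ v b < u a then 1 else 0 : ZMod 2)) = 0 := by
  have hx : x = 0 ∨ x = 1 ∨ x = 2 := by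
    fin_cases x
    · exact Or.inl rfl
    · exact Or.inr (Or.inl rfl)
    · exact Or.inr (Or.inr rfl)
  rcases hx with rfl | rfl | rfl
  · have h1 := hu 1 (by decide)
    have h2 := hu 2 (by decide)
    have h3 := hv 1 (by decide)
    have h4 := hv 2 (by decide)
    simp only [Fin.sum_univ_three, h1, h2, h3, h4]
    by_cases c1 : D < u 0 <;> by_cases c2 : v 0 < D <;> simp [c1, c2] <;> decide
  · have h1 := hu 0 (by decide)
    have h2 := hu 2 (by decide)
    have h3 := hv 0 (by decide)
    have h4 := hv 2 (by decide)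
    simp only [Fin.sum_univ_three, h1, h2, h3, h4]
    by_cases c1 : D < u 1 <;> by_cases c2 : v 1 < D <;> simp [c1, c2] <;> decide
  · have h1 := hu 0 (by decide)
    have h2 := hu 1 (by decide)
    have h3 := hv 0 (by decide)
    have h4 := hv 1 (by decide)
    simp only [Fin.sum_univ_three, h1, h2, h3, h4]
    by_cases c1 : D < u 2 <;> by_cases c2 : v 2 < D <;> simp [c1, c2] <;> decide

/-- there is at most one exceptional index -/
theorem tc_ex {n : ℕ} (d d' : Fin 3 → Fin n) (hd : StrictMono d) (hd' : StrictMono d')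
    (h1 : d 1 = d' 1) (q : Fin n) :
    ∃ x : Fin 3, (∀ a, a ≠ x → d a ≠ q) ∧ ∀ b, b ≠ x → d' b ≠ q := by
  by_cases hA : ∃ a, d a = q
  · obtain ⟨a, ha⟩ := hA
    refine ⟨a, fun a' h h' => h (hd.injective (h'.trans ha.symm)), fun b hb h' => hb ?_⟩
    have hba : d' b = d a := h'.trans ha.symm
    rcases lt_trichotomy a 1 with h | h | h
    · have h2 : d' b < d' 1 := by
        rw [hba, ← h1]
        exact hd h
      have h3 := hd'.lt_iff_lt.1 h2
      omega
    · subst h
      exact hd'.injective (hba.trans h1)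
    · have h2 : d' 1 < d' b := by
        rw [hba, ← h1]
        exact hd h
      have h3 := hd'.lt_iff_lt.1 h2
      omega
  · by_cases hB : ∃ b, d' b = q
    · obtain ⟨b, hb⟩ := hB
      exact ⟨b, fun a _ h => hA ⟨a, h⟩, fun b' h h' => h (hd'.injective (h'.trans hb.symm))⟩
    · exact ⟨0, fun a _ h => hA ⟨a, h⟩, fun b _ h => hB ⟨b, h⟩⟩

theorem pf_TC (hBT : T_BT) : T_TC := by
  intro n T E F lam mu g d d' hd hd' h1 hE hF c hcg
  obtain ⟨q, hq⟩ : ∃ q, T.dir g c = some q := by
    cases h : T.dir g c with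
    | none => exact absurd ((T.dir_none g c).1 h).symm hcg
    | some q => exact ⟨q, rfl⟩
  obtain ⟨D, hD⟩ : ∃ D, T.dir c g = some D := by
    cases h : T.dir c g with
    | none => exact absurd ((T.dir_none c g).1 h) hcg
    | some D => exact ⟨D, rfl⟩
  obtain ⟨x, hx1, hx2⟩ := tc_ex d d' hd hd' h1 q
  have hval : ∀ (e : T.V) (δ : Fin n) (l : Fin n), T.dir g e = some δ → δ ≠ q →
      dval l (T.dir c e) = 2 * D.val := by
    intro e δ l he hδ
    have hge : g ≠ e := by
      intro h
      rw [(T.dir_none g e).2 h] at he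
      exact absurd he (by simp)
    have hne : T.dir g c ≠ T.dir g e := by
      rw [hq, he]
      intro h
      exact hδ (Option.some.inj h).symm
    rw [hBT T g c e (Ne.symm hcg) hge hne, hD]
    rfl
  exact tc_sum (fun a => dval (lam a) (T.dir c (E a))) (fun b => dval (mu b) (T.dir c (F b)))
    (2 * D.val) x (fun a ha => hval _ _ _ (hE a) (hx1 a ha))
    (fun b hb => hval _ _ _ (hF b) (hx2 b hb))

end Pool.Agent.H99.BQ
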